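import Mathlib

/-!
# Equivariant uniformly continuous centres along a uniformly convex subspace

`i : W →L[ℝ] X` is an isomorphic embedding (`‖w‖ ≤ c * ‖i w‖`) of a uniformly convex Banach space.
For `x : X` the function `gau i c x w = sup_u (‖u - w‖ - 2 c ‖x + i u‖)` has a unique minimiser
`ctr x`, which satisfies `ctr (x + i v) = ctr x - v`, is positively homogeneous and uniformly
continuous on bounded sets.
-/

set_option autoImplicit false

namespace Pool.Agent.Lib.MP823

open Metric Set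

theorem uc_range (E : Type*) [NormedAddCommGroup E] [NormedSpace ℝ E] [UniformConvexSpace E]
    {t P : ℝ} (ht : 0 < t) (hP : 0 < P) :
    ∃ δ : ℝ, 0 < δ ∧ ∀ r : ℝ, r ≤ P → ∀ x y : E, ‖x‖ ≤ r → ‖y‖ ≤ r → t ≤ ‖x - y‖ →
      ‖x + y‖ ≤ 2 * r - δ := by
  obtain ⟨δ, hδ, h⟩ := exists_forall_closed_ball_dist_add_le_two_sub E (div_pos ht hP)
  refine ⟨t / 2 * δ, by positivity, fun r hr x y hx hy hxy => ?_⟩
  have h1 : t ≤ 2 * r := by
    calc t ≤ ‖x - y‖ := hxy
      _ ≤ ‖x‖ + ‖y‖ := norm_sub_le _ _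
      _ ≤ 2 * r := by linarith
  have hr0 : 0 < r := by linarith
  have e1 : ‖r⁻¹ • x‖ ≤ 1 := by
    rw [norm_smul_of_nonneg (inv_nonneg.2 hr0.le), inv_mul_le_iff₀ hr0]; linarith
  have e2 : ‖r⁻¹ • y‖ ≤ 1 := by
    rw [norm_smul_of_nonneg (inv_nonneg.2 hr0.le), inv_mul_le_iff₀ hr0]; linarith
  have e3 : t / P ≤ ‖r⁻¹ • x - r⁻¹ • y‖ := by
    rw [← smul_sub, norm_smul_of_nonneg (inv_nonneg.2 hr0.le), inv_mul_eq_div]
    exact div_le_div₀ (norm_nonneg _) hxy hr0 hr
  have e4 := h e1 e2 e3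
  rw [← smul_add, norm_smul_of_nonneg (inv_nonneg.2 hr0.le), inv_mul_le_iff₀ hr0] at e4
  nlinarith

section

variable {X W : Type*} [NormedAddCommGroup X] [NormedSpace ℝ X] [NormedAddCommGroup W]
  [NormedSpace ℝ W] (i : W →L[ℝ] X) (c : ℝ)

/-- The functional whose minimiser is the centre. -/
noncomputable def gau (x : X) (w : W) : ℝ := ⨆ u : W, (‖u - w‖ - 2 * c * ‖x + i u‖)

/-- The minimal value. -/
noncomputable def rad (x : X) : ℝ := ⨅ w : W, gau i c x w

variable {i c} (hc : 0 < c) (hi : ∀ w : W, ‖w‖ ≤ c * ‖i w‖)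

include hc hi

theorem term_le (x : X) (u w : W) :
    ‖u - w‖ - 2 * c * ‖x + i u‖ ≤ c * ‖x + i w‖ - c * ‖x + i u‖ := by
  have h1 : ‖u - w‖ ≤ c * ‖i (u - w)‖ := hi _
  have h2 : ‖i (u - w)‖ ≤ ‖x + i u‖ + ‖x + i w‖ := by
    have : i (u - w) = (x + i u) - (x + i w) := by rw [map_sub]; abel
    rw [this]; exact norm_sub_le _ _
  have h3 : c * ‖i (u - w)‖ ≤ c * (‖x + i u‖ + ‖x + i w‖) := mul_le_mul_of_nonneg_left h2 hc.le
  linarith

theorem bdd (x : X) (w : W) :
    BddAbove (Set.range fun u : W => ‖u - w‖ - 2 * c * ‖x + i u‖) := by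
  refine ⟨c * ‖x + i w‖, ?_⟩
  rintro _ ⟨u, rfl⟩
  have := term_le hc hi x u w
  have h : 0 ≤ c * ‖x + i u‖ := by positivity
  simp only
  linarith

theorem le_gau (x : X) (u w : W) : ‖u - w‖ - 2 * c * ‖x + i u‖ ≤ gau i c x w :=
  le_ciSup (bdd hc hi x w) u

theorem gau_le_of (x : X) (w : W) : gau i c x w ≤ c * ‖x + i w‖ := by
  refine ciSup_le fun u => ?_
  have := term_le hc hi x u w
  have h : 0 ≤ c * ‖x + i u‖ := by positivity
  linarith

theorem gau_lip_w (x : X) (w w' : W) : gau i c x w ≤ gau i c x w' + ‖w - w'‖ := by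
  refine ciSup_le fun u => ?_
  have h1 := le_gau hc hi x u w'
  have h2 : ‖u - w‖ ≤ ‖u - w'‖ + ‖w - w'‖ := by
    have : u - w = (u - w') - (w - w') := by abel
    rw [this]; exact norm_sub_le _ _
  linarith

theorem gau_lip_x (x x' : X) (w : W) : gau i c x w ≤ gau i c x' w + 2 * c * ‖x - x'‖ := by
  refine ciSup_le fun u => ?_
  have h1 := le_gau hc hi x' u w
  have h2 : ‖x' + i u‖ ≤ ‖x + i u‖ + ‖x - x'‖ := by
    have : x' + i u = (x + i u) - (x - x') := by abel
    rw [this]; exact norm_sub_le _ _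
  have h3 : 2 * c * ‖x' + i u‖ ≤ 2 * c * (‖x + i u‖ + ‖x - x'‖) :=
    mul_le_mul_of_nonneg_left h2 (by positivity)
  linarith

theorem gau_shift (x : X) (v w : W) : gau i c (x + i v) w = gau i c x (w + v) := by
  apply le_antisymm
  · refine ciSup_le fun u => ?_
    have h1 := le_gau hc hi x (u + v) (w + v)
    have e1 : u + v - (w + v) = u - w := by abel
    have e2 : x + i (u + v) = x + i v + i u := by rw [map_add]; abel
    rwa [e1, e2] at h1
  · refine ciSup_le fun u => ?_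
    have h1 := le_gau hc hi (x + i v) (u - v) w
    have e1 : u - v - w = u - (w + v) := by abel
    have e2 : x + i v + i (u - v) = x + i u := by rw [map_sub]; abel
    rwa [e1, e2] at h1

theorem gau_smul_le (x : X) (w : W) {t : ℝ} (ht : 0 < t) :
    gau i c (t • x) (t • w) ≤ t * gau i c x w := by
  refine ciSup_le fun u => ?_
  have h1 := le_gau hc hi x (t⁻¹ • u) w
  have e1 : u - t • w = t • (t⁻¹ • u - w) := by
    rw [smul_sub, smul_smul, mul_inv_cancel₀ ht.ne', one_smul]
  have e2 : t • x + i u = t • (x + i (t⁻¹ • u)) := by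
    rw [smul_add, map_smul, smul_smul, mul_inv_cancel₀ ht.ne', one_smul]
  rw [e1, e2, norm_smul_of_nonneg ht.le, norm_smul_of_nonneg ht.le]
  have h2 := mul_le_mul_of_nonneg_left h1 ht.le
  linarith [h2]

theorem gau_smul (x : X) (w : W) {t : ℝ} (ht : 0 < t) :
    gau i c (t • x) (t • w) = t * gau i c x w := by
  refine le_antisymm (gau_smul_le hc hi x w ht) ?_
  have h := gau_smul_le hc hi (t • x) (t • w) (inv_pos.2 ht)
  rw [smul_smul, smul_smul, inv_mul_cancel₀ ht.ne', one_smul, one_smul] at h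
  calc t * gau i c x w ≤ t * (t⁻¹ * gau i c (t • x) (t • w)) := mul_le_mul_of_nonneg_left h ht.le
    _ = gau i c (t • x) (t • w) := by rw [← mul_assoc, mul_inv_cancel₀ ht.ne', one_mul]

theorem gau_ge (x : X) (w : W) : ‖w‖ - 2 * c * ‖x‖ ≤ gau i c x w := by
  have := le_gau hc hi x 0 w
  simpa using this

theorem bddBelow (x : X) : BddBelow (Set.range fun w : W => gau i c x w) := by
  refine ⟨- (2 * c * ‖x‖), ?_⟩
  rintro _ ⟨w, rfl⟩
  have := gau_ge hc hi x w
  have h := norm_nonneg w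
  simp only
  linarith

theorem rad_le (x : X) (w : W) : rad i c x ≤ gau i c x w := ciInf_le (bddBelow hc hi x) w

theorem rad_ge (x : X) : - (2 * c * ‖x‖) ≤ rad i c x := by
  refine le_ciInf fun w => ?_
  have := gau_ge hc hi x w
  have h := norm_nonneg w
  linarith

theorem rad_le' (x : X) : rad i c x ≤ c * ‖x‖ := by
  have h1 := rad_le hc hi x 0
  have h2 := gau_le_of hc hi x 0
  simp only [map_zero, add_zero] at h2
  linarith

theorem rad_lip (x x' : X) : rad i c x ≤ rad i c x' + 2 * c * ‖x - x'‖ := by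
  have : rad i c x - 2 * c * ‖x - x'‖ ≤ rad i c x' := by
    refine le_ciInf fun w => ?_
    have h1 := rad_le hc hi x w
    have h2 := gau_lip_x hc hi x x' w
    linarith
  linarith

/-- Near minimisers are close to each other, uniformly for `x` in a ball. -/
theorem near [UniformConvexSpace W] {R t : ℝ} (hR : 0 < R) (ht : 0 < t) :
    ∃ δ : ℝ, 0 < δ ∧ ∀ x : X, ‖x‖ ≤ R → ∀ w1 w2 : W, gau i c x w1 ≤ rad i c x + δ →
      gau i c x w2 ≤ rad i c x + δ → ‖w1 - w2‖ < t := by
  set B : ℝ := 3 * c * R + 1 with hB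
  set Q : ℝ := 3 * R + ‖i‖ * B + 1 / c with hQ
  set P : ℝ := c * R + 1 + 2 * c * Q with hP
  have hB0 : 0 < B := by positivity
  have hQ0 : 0 < Q := by positivity
  have hP0 : 0 < P := by positivity
  obtain ⟨δ1, hδ1, huc⟩ := uc_range W ht hP0
  refine ⟨min 1 (δ1 / 4), by positivity, fun x hx w1 w2 h1 h2 => ?_⟩
  by_contra hcon
  push Not at hcon
  have hm1 := rad_ge hc hi x
  have hm2 := rad_le' hc hi x
  have hcx : c * ‖x‖ ≤ c * R := mul_le_mul_of_nonneg_left hx hc.le
  have hd1 : min 1 (δ1 / 4) ≤ 1 := min_le_left _ _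
  have hd2 : min 1 (δ1 / 4) ≤ δ1 / 4 := min_le_right _ _
  have hw1 : ‖w1‖ ≤ B := by
    have := gau_ge hc hi x w1
    nlinarith
  have hw2 : ‖w2‖ ≤ B := by
    have := gau_ge hc hi x w2
    nlinarith
  set w : W := (1 / 2 : ℝ) • (w1 + w2) with hw
  have hwB : ‖w‖ ≤ B := by
    rw [hw, norm_smul_of_nonneg (by norm_num)]
    have := norm_add_le w1 w2
    linarith
  have hiw : ‖x + i w‖ ≤ R + ‖i‖ * B := by
    calc ‖x + i w‖ ≤ ‖x‖ + ‖i w‖ := norm_add_le _ _
      _ ≤ R + ‖i‖ * B := by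
        have := i.le_opNorm w
        have h3 : ‖i‖ * ‖w‖ ≤ ‖i‖ * B := mul_le_mul_of_nonneg_left hwB (norm_nonneg _)
        linarith
  have hlt : gau i c x w ≤ rad i c x - min 1 (δ1 / 4) := by
    refine ciSup_le fun u => ?_
    by_cases hu : ‖u - w‖ - 2 * c * ‖x + i u‖ ≤ rad i c x - 1
    · linarith
    · push Not at hu
      have h3 := term_le hc hi x u w
      have h4 : c * ‖x + i u‖ ≤ c * Q := by
        have e : c * Q = 3 * (c * R) + c * (‖i‖ * B) + 1 := by
          rw [hQ]; field_simp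
        have h5 : c * ‖x + i w‖ ≤ c * (R + ‖i‖ * B) := mul_le_mul_of_nonneg_left hiw hc.le
        rw [e]
        nlinarith
      have h6 := le_gau hc hi x u w1
      have h7 := le_gau hc hi x u w2
      set ρ : ℝ := rad i c x + min 1 (δ1 / 4) + 2 * c * ‖x + i u‖ with hρ
      have h8 : ‖u - w1‖ ≤ ρ := by linarith
      have h9 : ‖u - w2‖ ≤ ρ := by linarith
      have h10 : ρ ≤ P := by
        rw [hρ, hP]; nlinarith
      have h11 : t ≤ ‖(u - w1) - (u - w2)‖ := by
        have : (u - w1) - (u - w2) = -(w1 - w2) := by abel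
        rw [this, norm_neg]; exact hcon
      have h12 := huc ρ h10 _ _ h8 h9 h11
      have h13 : u - w = (1 / 2 : ℝ) • ((u - w1) + (u - w2)) := by
        rw [hw]
        have : (u - w1) + (u - w2) = (2 : ℝ) • u - (w1 + w2) := by rw [two_smul]; abel
        rw [this, smul_sub, smul_smul]
        norm_num
      have h14 : ‖u - w‖ ≤ ρ - δ1 / 2 := by
        rw [h13, norm_smul_of_nonneg (by norm_num)]
        linarith
      linarith
  have := rad_le hc hi x w
  have hpos : 0 < min 1 (δ1 / 4) := by positivity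
  linarith

theorem exists_min [UniformConvexSpace W] [CompleteSpace W] (x : X) :
    ∃ w : W, gau i c x w ≤ rad i c x := by
  have hex : ∀ n : ℕ, ∃ w : W, gau i c x w < rad i c x + 1 / ((n : ℝ) + 1) := fun n =>
    exists_lt_of_ciInf_lt (lt_add_of_pos_right _ (by positivity))
  choose s hs using hex
  have hcau : CauchySeq s := by
    rw [Metric.cauchySeq_iff]
    intro t ht
    obtain ⟨δ, hδ, h⟩ := near (i := i) hc hi (R := ‖x‖ + 1) (by positivity) ht
    obtain ⟨N, hN⟩ := exists_nat_one_div_lt hδ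
    refine ⟨N, fun m hm n hn => ?_⟩
    rw [dist_eq_norm]
    have key : ∀ k : ℕ, N ≤ k → gau i c x (s k) ≤ rad i c x + δ := by
      intro k hk
      have h1 := hs k
      have h2 : 1 / ((k : ℝ) + 1) ≤ 1 / ((N : ℝ) + 1) :=
        one_div_le_one_div_of_le (by positivity) (by exact_mod_cast Nat.succ_le_succ hk)
      linarith
    exact h x (by linarith) _ _ (key m hm) (key n hn)
  obtain ⟨w, hw⟩ := cauchySeq_tendsto_of_complete hcau
  refine ⟨w, le_of_forall_pos_le_add fun ε hε => ?_⟩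
  rw [Metric.tendsto_atTop] at hw
  obtain ⟨N, hN⟩ := hw (ε / 2) (by positivity)
  obtain ⟨M, hM⟩ := exists_nat_one_div_lt (show (0 : ℝ) < ε / 2 by positivity)
  have h1 := hN (max N M) (le_max_left _ _)
  have h2 := hs (max N M)
  have h3 : 1 / (((max N M : ℕ) : ℝ) + 1) ≤ 1 / ((M : ℝ) + 1) :=
    one_div_le_one_div_of_le (by positivity)
      (by exact_mod_cast Nat.succ_le_succ (le_max_right N M))
  have h4 := gau_lip_w hc hi x w (s (max N M))
  rw [dist_comm, dist_eq_norm] at h1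
  linarith

end

section

variable {X W : Type*} [NormedAddCommGroup X] [NormedSpace ℝ X] [NormedAddCommGroup W]
  [NormedSpace ℝ W] [UniformConvexSpace W] [CompleteSpace W]

/-- Existence of the equivariant uniformly continuous centre. -/
theorem exists_center (i : W →L[ℝ] X) {c : ℝ} (hc : 0 < c) (hi : ∀ w : W, ‖w‖ ≤ c * ‖i w‖) :
    ∃ γ : X → W, (∀ x v, γ (x + i v) = γ x - v) ∧
      (∀ t : ℝ, 0 < t → ∀ x, γ (t • x) = t • γ x) ∧
      ∀ R : ℝ, UniformContinuousOn γ (closedBall 0 R) := by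
  choose γ hγ using exists_min (i := i) hc hi
  have huniq : ∀ x w, gau i c x w ≤ rad i c x → w = γ x := by
    intro x w hw
    by_contra hne
    have hpos : 0 < ‖w - γ x‖ := norm_pos_iff.2 (sub_ne_zero.2 hne)
    obtain ⟨δ, hδ, h⟩ := near (i := i) hc hi (R := ‖x‖ + 1) (by positivity) hpos
    have := h x (by linarith) w (γ x) (by linarith) (by linarith [hγ x])
    exact lt_irrefl _ this
  refine ⟨γ, fun x v => ?_, fun t ht x => ?_, fun R => ?_⟩
  · symm
    apply huniq
    rw [gau_shift hc hi, sub_add_cancel]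
    refine (hγ x).trans (le_ciInf fun w => ?_)
    rw [gau_shift hc hi]
    exact rad_le hc hi x _
  · symm
    apply huniq
    rw [gau_smul hc hi _ _ ht]
    refine le_ciInf fun w => ?_
    have e : w = t • (t⁻¹ • w) := by rw [smul_smul, mul_inv_cancel₀ ht.ne', one_smul]
    rw [e, gau_smul hc hi _ _ ht]
    exact mul_le_mul_of_nonneg_left ((hγ x).trans (rad_le hc hi x _)) ht.le
  · rw [Metric.uniformContinuousOn_iff]
    intro t ht
    obtain ⟨δ, hδ, h⟩ := near (i := i) hc hi (R := |R| + 1) (by positivity) ht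
    refine ⟨δ / (4 * c), by positivity, fun x hx y hy hxy => ?_⟩
    rw [mem_closedBall_zero_iff] at hx hy
    have hRR := le_abs_self R
    rw [dist_eq_norm] at hxy ⊢
    rw [lt_div_iff₀ (by positivity)] at hxy
    have h1 := gau_lip_x hc hi y x (γ x)
    have h2 := rad_lip hc hi x y
    have h3 := hγ x
    rw [norm_sub_rev] at h1
    refine h y (by linarith) (γ x) (γ y) ?_ (by linarith [hγ y])
    nlinarith

end

end Pool.Agent.Lib.MP823
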