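import Mathlib
import Pool.Agent.Lib.MP_823cfe_an.Center

/-!
# Positively homogeneous uniform homeomorphisms

`HU A B`: there is a bijection `A → B`, positively homogeneous, uniformly continuous on bounded
sets together with its inverse.  It is equivalent to uniform homeomorphism of the unit spheres.
-/

set_option autoImplicit false

namespace Pool.Agent.Lib.MP823

open Metric Set

section PH

variable {A B C D : Type*} [NormedAddCommGroup A] [NormedSpace ℝ A] [NormedAddCommGroup B]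
  [NormedSpace ℝ B] [NormedAddCommGroup C] [NormedSpace ℝ C] [NormedAddCommGroup D]
  [NormedSpace ℝ D]

/-- Positively homogeneous and uniformly continuous on bounded sets. -/
structure PH (f : A → B) : Prop where
  hom : ∀ t : ℝ, 0 < t → ∀ x, f (t • x) = t • f x
  uc : ∀ R : ℝ, UniformContinuousOn f (closedBall 0 R)

theorem PH.zero {f : A → B} (hf : PH f) : f 0 = 0 := by
  have h := hf.hom 2 (by norm_num) 0
  rw [smul_zero, two_smul] at h
  simpa using h

theorem PH.bound {f : A → B} (hf : PH f) : ∃ K : ℝ, 0 < K ∧ ∀ x, ‖f x‖ ≤ K * ‖x‖ := by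
  obtain ⟨δ, hδ, h⟩ := Metric.uniformContinuousOn_iff.1 (hf.uc 1) 1 one_pos
  set r : ℝ := min (δ / 2) 1 with hr
  have hr0 : 0 < r := by positivity
  refine ⟨1 / r, by positivity, fun x => ?_⟩
  by_cases hx : x = 0
  · subst hx
    rw [hf.zero]
    simp
  · have hxn : 0 < ‖x‖ := norm_pos_iff.2 hx
    have h1 : ‖(r / ‖x‖) • x‖ = r := by
      rw [norm_smul_of_nonneg (by positivity), div_mul_cancel₀ _ hxn.ne']
    have h2 := h ((r / ‖x‖) • x) (by
      rw [mem_closedBall_zero_iff, h1]; exact min_le_right _ _) 0 (by simp) (by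
      rw [dist_zero_right, h1]
      have := min_le_left (δ / 2) 1
      linarith)
    rw [hf.zero, dist_zero_right, hf.hom _ (by positivity), norm_smul_of_nonneg (by positivity)] at h2
    rw [div_mul_eq_mul_div, one_mul, le_div_iff₀ hr0]
    rw [div_mul_eq_mul_div, div_lt_one hxn] at h2
    linarith

theorem PH.comp {g : B → C} {f : A → B} (hg : PH g) (hf : PH f) : PH (g ∘ f) := by
  refine ⟨fun t ht x => ?_, fun R => ?_⟩
  · simp only [Function.comp_apply]
    rw [hf.hom t ht, hg.hom t ht]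
  · obtain ⟨K, hK, hb⟩ := hf.bound
    refine (hg.uc (K * |R|)).comp (hf.uc R) fun x hx => ?_
    rw [mem_closedBall_zero_iff] at hx ⊢
    exact (hb x).trans (mul_le_mul_of_nonneg_left (hx.trans (le_abs_self R)) hK.le)

theorem PH.prod {f : A → B} {g : C → D} (hf : PH f) (hg : PH g) : PH (Prod.map f g) := by
  refine ⟨fun t ht x => ?_, fun R => ?_⟩
  · ext1
    · exact hf.hom t ht _
    · exact hg.hom t ht _
  · rw [Metric.uniformContinuousOn_iff]
    intro ε hε
    obtain ⟨δ1, hδ1, h1⟩ := Metric.uniformContinuousOn_iff.1 (hf.uc R) ε hε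
    obtain ⟨δ2, hδ2, h2⟩ := Metric.uniformContinuousOn_iff.1 (hg.uc R) ε hε
    refine ⟨min δ1 δ2, by positivity, fun x hx y hy hxy => ?_⟩
    rw [mem_closedBall_zero_iff] at hx hy
    rw [Prod.dist_eq] at hxy ⊢
    rw [max_lt_iff, lt_min_iff, lt_min_iff] at hxy
    refine max_lt ?_ ?_
    · refine h1 _ ?_ _ ?_ hxy.1.1
      · rw [mem_closedBall_zero_iff]; exact (norm_fst_le x).trans hx
      · rw [mem_closedBall_zero_iff]; exact (norm_fst_le y).trans hy
    · refine h2 _ ?_ _ ?_ hxy.2.2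
      · rw [mem_closedBall_zero_iff]; exact (norm_snd_le x).trans hx
      · rw [mem_closedBall_zero_iff]; exact (norm_snd_le y).trans hy

theorem PH.ofCLM (f : A →L[ℝ] B) : PH (f : A → B) :=
  ⟨fun t _ x => by rw [map_smul], fun _ => f.uniformContinuous.uniformContinuousOn⟩

theorem PH.id : PH (id : A → A) := ⟨fun _ _ _ => rfl, fun _ => uniformContinuous_id.uniformContinuousOn⟩

/-- Existence of a positively homogeneous bijection which is uniformly continuous on bounded sets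
together with its inverse. -/
def HU (A B : Type*) [NormedAddCommGroup A] [NormedSpace ℝ A] [NormedAddCommGroup B]
    [NormedSpace ℝ B] : Prop := ∃ e : A ≃ B, PH e ∧ PH e.symm

theorem HU.refl : HU A A := ⟨Equiv.refl A, PH.id, PH.id⟩

theorem HU.symm (h : HU A B) : HU B A := by
  obtain ⟨e, h1, h2⟩ := h
  exact ⟨e.symm, h2, h1⟩

theorem HU.trans (h : HU A B) (h' : HU B C) : HU A C := by
  obtain ⟨e, h1, h2⟩ := h
  obtain ⟨e', h1', h2'⟩ := h'
  exact ⟨e.trans e', h1'.comp h1, h2.comp h2'⟩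

theorem HU.prod (h : HU A B) (h' : HU C D) : HU (A × C) (B × D) := by
  obtain ⟨e, h1, h2⟩ := h
  obtain ⟨e', h1', h2'⟩ := h'
  exact ⟨Equiv.prodCongr e e', h1.prod h1', h2.prod h2'⟩

theorem HU.ofCLE (e : A ≃L[ℝ] B) : HU A B :=
  ⟨e.toEquiv, PH.ofCLM (e : A →L[ℝ] B), PH.ofCLM (e.symm : B →L[ℝ] A)⟩

theorem HU.prodComm : HU (A × B) (B × A) := HU.ofCLE (ContinuousLinearEquiv.prodComm ℝ A B)

theorem HU.prodAssoc : HU ((A × B) × C) (A × (B × C)) :=
  HU.ofCLE (ContinuousLinearEquiv.prodAssoc ℝ A B C)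

/-- Distance of normalised vectors. -/
theorem norm_normalize_sub {x y : A} (hx : x ≠ 0) (hy : y ≠ 0) :
    ‖‖x‖⁻¹ • x - ‖y‖⁻¹ • y‖ ≤ 2 * ‖x - y‖ / ‖x‖ := by
  have hx0 : 0 < ‖x‖ := norm_pos_iff.2 hx
  have hy0 : 0 < ‖y‖ := norm_pos_iff.2 hy
  have e : ‖x‖⁻¹ • x - ‖y‖⁻¹ • y = ‖x‖⁻¹ • (x - y) + (‖x‖⁻¹ - ‖y‖⁻¹) • y := by
    rw [smul_sub, sub_smul]; abel
  rw [e]
  have h1 : ‖‖x‖⁻¹ • (x - y)‖ = ‖x - y‖ / ‖x‖ := by
    rw [norm_smul_of_nonneg (inv_nonneg.2 hx0.le), inv_mul_eq_div]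
  have h2 : ‖(‖x‖⁻¹ - ‖y‖⁻¹) • y‖ ≤ ‖x - y‖ / ‖x‖ := by
    rw [norm_smul, Real.norm_eq_abs]
    have h3 : (‖x‖⁻¹ - ‖y‖⁻¹) = (‖y‖ - ‖x‖) / (‖x‖ * ‖y‖) := by
      field_simp
    rw [h3, abs_div, abs_of_pos (mul_pos hx0 hy0)]
    have h4 : |‖y‖ - ‖x‖| ≤ ‖x - y‖ := by
      rw [norm_sub_rev]; exact abs_norm_sub_norm_le y x
    calc |‖y‖ - ‖x‖| / (‖x‖ * ‖y‖) * ‖y‖ = |‖y‖ - ‖x‖| / ‖x‖ := by field_simp
      _ ≤ ‖x - y‖ / ‖x‖ := div_le_div_of_nonneg_right h4 hx0.le
  calc ‖‖x‖⁻¹ • (x - y) + (‖x‖⁻¹ - ‖y‖⁻¹) • y‖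
      ≤ ‖‖x‖⁻¹ • (x - y)‖ + ‖(‖x‖⁻¹ - ‖y‖⁻¹) • y‖ := norm_add_le _ _
    _ ≤ 2 * ‖x - y‖ / ‖x‖ := by
      rw [h1]
      have : 2 * ‖x - y‖ / ‖x‖ = ‖x - y‖ / ‖x‖ + ‖x - y‖ / ‖x‖ := by ring
      linarith

/-- The radial extension of a map between unit spheres. -/
noncomputable def radial (φ : sphere (0 : A) 1 → sphere (0 : B) 1) (x : A) : B := by
  classical
  exact if h : x = 0 then 0
    else ‖x‖ • (φ ⟨‖x‖⁻¹ • x, by
      rw [mem_sphere_zero_iff_norm, norm_smul_of_nonneg (inv_nonneg.2 (norm_nonneg _)),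
        inv_mul_cancel₀ (norm_ne_zero_iff.2 h)]⟩ : B)

theorem norm_unit {x : A} (h : x ≠ 0) : ‖x‖⁻¹ • x ∈ sphere (0 : A) 1 := by
  rw [mem_sphere_zero_iff_norm, norm_smul_of_nonneg (inv_nonneg.2 (norm_nonneg _)),
        inv_mul_cancel₀ (norm_ne_zero_iff.2 h)]

theorem radial_zero (φ : sphere (0 : A) 1 → sphere (0 : B) 1) : radial φ 0 = 0 := by
  simp [radial]

theorem radial_ne (φ : sphere (0 : A) 1 → sphere (0 : B) 1) {x : A} (h : x ≠ 0) :
    radial φ x = ‖x‖ • (φ ⟨‖x‖⁻¹ • x, norm_unit h⟩ : B) := by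
  simp [radial, h]

theorem norm_radial (φ : sphere (0 : A) 1 → sphere (0 : B) 1) (x : A) : ‖radial φ x‖ = ‖x‖ := by
  by_cases h : x = 0
  · subst h; rw [radial_zero]; simp
  · rw [radial_ne φ h, norm_smul_of_nonneg (norm_nonneg _)]
    have := mem_sphere_zero_iff_norm.1 (φ ⟨‖x‖⁻¹ • x, norm_unit h⟩).2
    rw [this, mul_one]

theorem radial_radial (φ : sphere (0 : A) 1 → sphere (0 : B) 1)
    (ψ : sphere (0 : B) 1 → sphere (0 : A) 1) (hψ : ∀ a, ψ (φ a) = a) (x : A) :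
    radial ψ (radial φ x) = x := by
  by_cases h : x = 0
  · subst h; rw [radial_zero, radial_zero]
  · have hn : ‖radial φ x‖ = ‖x‖ := norm_radial φ x
    have h0 : 0 < ‖x‖ := norm_pos_iff.2 h
    have hne : radial φ x ≠ 0 := by
      rw [← norm_pos_iff, hn]; exact h0
    rw [radial_ne ψ hne]
    have e : (⟨‖radial φ x‖⁻¹ • radial φ x, norm_unit hne⟩ : sphere (0 : B) 1)
        = φ ⟨‖x‖⁻¹ • x, norm_unit h⟩ := by
      apply Subtype.ext
      simp only
      rw [hn, radial_ne φ h, smul_smul, inv_mul_cancel₀ h0.ne', one_smul]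
    rw [e, hψ, hn]
    simp only
    rw [smul_smul, mul_inv_cancel₀ h0.ne', one_smul]

theorem radial_ph (φ : sphere (0 : A) 1 → sphere (0 : B) 1) (hφ : UniformContinuous φ) :
    PH (radial φ) := by
  refine ⟨fun t ht x => ?_, fun R => ?_⟩
  · by_cases h : x = 0
    · subst h; rw [smul_zero, radial_zero, smul_zero]
    · have hne : t • x ≠ 0 := smul_ne_zero ht.ne' h
      have h0 : 0 < ‖x‖ := norm_pos_iff.2 h
      rw [radial_ne φ hne, radial_ne φ h]
      have e : (⟨‖t • x‖⁻¹ • (t • x), norm_unit hne⟩ : sphere (0 : A) 1)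
          = ⟨‖x‖⁻¹ • x, norm_unit h⟩ := by
        apply Subtype.ext
        simp only
        rw [norm_smul_of_nonneg ht.le, smul_smul, mul_inv, mul_assoc, mul_comm (‖x‖⁻¹) t,
          ← mul_assoc, inv_mul_cancel₀ ht.ne', one_mul]
      rw [e, norm_smul_of_nonneg ht.le, mul_smul]
  · rw [Metric.uniformContinuousOn_iff]
    intro ε hε
    set R' : ℝ := |R| + 1 with hR'
    have hR0 : 0 < R' := by positivity
    obtain ⟨δ, hδ, h⟩ := Metric.uniformContinuous_iff.1 hφ (ε / (2 * R')) (by positivity)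
    refine ⟨min (ε / 4) (δ * (ε / 4) / 4), by positivity, fun x hx y hy hxy => ?_⟩
    rw [mem_closedBall_zero_iff] at hx hy
    rw [lt_min_iff, dist_eq_norm] at hxy
    rw [dist_eq_norm]
    have hRa := le_abs_self R
    by_cases hsmall : ‖x‖ ≤ ε / 4
    · have h1 : ‖y‖ ≤ ‖x‖ + ‖x - y‖ := by
        have : y = x - (x - y) := by abel
        calc ‖y‖ = ‖x - (x - y)‖ := by rw [← this]
          _ ≤ ‖x‖ + ‖x - y‖ := norm_sub_le _ _
      have h2 := norm_sub_le (radial φ x) (radial φ y)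
      rw [norm_radial, norm_radial] at h2
      linarith
    · push Not at hsmall
      have hx0 : x ≠ 0 := by
        rintro rfl; rw [norm_zero] at hsmall; linarith
      have hy0 : y ≠ 0 := by
        rintro rfl
        rw [sub_zero] at hxy
        linarith
      have hxp : 0 < ‖x‖ := norm_pos_iff.2 hx0
      have hyp : 0 < ‖y‖ := norm_pos_iff.2 hy0
      have h1 := norm_normalize_sub hx0 hy0
      have h2 : 2 * ‖x - y‖ / ‖x‖ < δ := by
        rw [div_lt_iff₀ hxp]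
        nlinarith
      set a : sphere (0 : A) 1 := ⟨‖x‖⁻¹ • x, norm_unit hx0⟩ with ha
      set b : sphere (0 : A) 1 := ⟨‖y‖⁻¹ • y, norm_unit hy0⟩ with hb
      have h3 : dist a b < δ := by
        rw [Subtype.dist_eq, dist_eq_norm]
        exact lt_of_le_of_lt h1 h2
      have h4 := h h3
      rw [Subtype.dist_eq, dist_eq_norm] at h4
      rw [radial_ne φ hx0, radial_ne φ hy0]
      have e : ‖x‖ • (φ a : B) - ‖y‖ • (φ b : B)
          = ‖x‖ • ((φ a : B) - (φ b : B)) + (‖x‖ - ‖y‖) • (φ b : B) := by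
        rw [smul_sub, sub_smul]; abel
      rw [← ha, ← hb, e]
      have h5 : ‖‖x‖ • ((φ a : B) - (φ b : B))‖ ≤ ε / 2 := by
        rw [norm_smul_of_nonneg hxp.le]
        have h6 : ‖x‖ ≤ R' := by linarith
        calc ‖x‖ * ‖(φ a : B) - (φ b : B)‖ ≤ R' * (ε / (2 * R')) :=
              mul_le_mul h6 h4.le (norm_nonneg _) hR0.le
          _ = ε / 2 := by field_simp
      have h7 : ‖(‖x‖ - ‖y‖) • (φ b : B)‖ ≤ ‖x - y‖ := by
        rw [norm_smul, Real.norm_eq_abs]
        have := mem_sphere_zero_iff_norm.1 (φ b).2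
        rw [this, mul_one]
        exact abs_norm_sub_norm_le x y
      have h8 := norm_add_le (‖x‖ • ((φ a : B) - (φ b : B))) ((‖x‖ - ‖y‖) • (φ b : B))
      linarith [hxy.1]

/-- Uniformly homeomorphic spheres give a positively homogeneous uniform homeomorphism. -/
theorem HU.ofSphere (e : UniformEquiv (sphere (0 : A) 1) (sphere (0 : B) 1)) : HU A B :=
  ⟨⟨radial e, radial e.symm, radial_radial _ _ (fun a => e.symm_apply_apply a),
    radial_radial _ _ (fun a => e.apply_symm_apply a)⟩,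
    radial_ph _ e.uniformContinuous, radial_ph _ e.symm.uniformContinuous⟩

/-- Normalisation of a positively homogeneous uniform homeomorphism. -/
theorem sphere_map (e : A ≃ B) (h1 : PH e) (h2 : PH e.symm) :
    ∃ φ : sphere (0 : A) 1 → sphere (0 : B) 1, UniformContinuous φ ∧
      ∀ a, (φ a : B) = ‖e a‖⁻¹ • e a := by
  obtain ⟨K, hK, hb⟩ := h2.bound
  have hlow : ∀ a : sphere (0 : A) 1, 1 / K ≤ ‖e a‖ := by
    intro a
    have h := hb (e a)
    rw [e.symm_apply_apply, mem_sphere_zero_iff_norm.1 a.2] at h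
    rw [div_le_iff₀ hK]; linarith
  have hne : ∀ a : sphere (0 : A) 1, e a ≠ 0 := by
    intro a
    rw [← norm_pos_iff]
    exact lt_of_lt_of_le (by positivity) (hlow a)
  refine ⟨fun a => ⟨‖e a‖⁻¹ • e a, norm_unit (hne a)⟩, ?_, fun a => rfl⟩
  rw [Metric.uniformContinuous_iff]
  intro ε hε
  obtain ⟨δ, hδ, h⟩ := Metric.uniformContinuousOn_iff.1 (h1.uc 1) (ε / (2 * K)) (by positivity)
  refine ⟨δ, hδ, fun a b hab => ?_⟩
  rw [Subtype.dist_eq] at hab ⊢
  have h3 := h a (by rw [mem_closedBall_zero_iff, mem_sphere_zero_iff_norm.1 a.2]) b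
    (by rw [mem_closedBall_zero_iff, mem_sphere_zero_iff_norm.1 b.2]) hab
  rw [dist_eq_norm] at h3 ⊢
  refine lt_of_le_of_lt (norm_normalize_sub (hne a) (hne b)) ?_
  have hp : 0 < ‖e a‖ := norm_pos_iff.2 (hne a)
  rw [div_lt_iff₀ hp]
  have h4 := hlow a
  rw [lt_div_iff₀ (by positivity)] at h3
  rw [div_le_iff₀ hK] at h4
  have h5 : 2 * ‖e a - e b‖ * K < ε * (‖e a‖ * K) := by nlinarith
  nlinarith

theorem HU.toSphere (h : HU A B) :
    Nonempty (UniformEquiv (sphere (0 : A) 1) (sphere (0 : B) 1)) := by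
  obtain ⟨e, h1, h2⟩ := h
  obtain ⟨φ, hφ, hφe⟩ := sphere_map e h1 h2
  obtain ⟨ψ, hψ, hψe⟩ := sphere_map e.symm h2 (by simpa using h1)
  refine ⟨⟨⟨φ, ψ, fun a => ?_, fun b => ?_⟩, hφ, hψ⟩⟩
  · apply Subtype.ext
    rw [hψe, hφe]
    have hne : e a ≠ 0 := by
      intro h0
      have : (a : A) = 0 := by
        rw [← e.symm_apply_apply (a : A), h0, h2.zero]
      have h3 := mem_sphere_zero_iff_norm.1 a.2
      rw [this, norm_zero] at h3
      exact zero_ne_one h3
    have hp : 0 < ‖e a‖ := norm_pos_iff.2 hne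
    rw [h2.hom _ (inv_pos.2 hp), e.symm_apply_apply, norm_smul_of_nonneg (inv_nonneg.2 hp.le),
      mem_sphere_zero_iff_norm.1 a.2, mul_one, inv_inv, smul_smul, mul_inv_cancel₀ hp.ne', one_smul]
  · apply Subtype.ext
    rw [hφe, hψe]
    have hne : e.symm b ≠ 0 := by
      intro h0
      have : (b : B) = 0 := by
        rw [← e.apply_symm_apply (b : B), h0, h1.zero]
      have h3 := mem_sphere_zero_iff_norm.1 b.2
      rw [this, norm_zero] at h3
      exact zero_ne_one h3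
    have hp : 0 < ‖e.symm b‖ := norm_pos_iff.2 hne
    rw [h1.hom _ (inv_pos.2 hp), e.apply_symm_apply, norm_smul_of_nonneg (inv_nonneg.2 hp.le),
      mem_sphere_zero_iff_norm.1 b.2, mul_one, inv_inv, smul_smul, mul_inv_cancel₀ hp.ne', one_smul]

end PH

end Pool.Agent.Lib.MP823
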