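import Mathlib
import Pool.Agent.Lib.MP_823cfe_an.PHU

/-!
# Extensions by a uniformly convex kernel split uniformly

If `0 → W → X → Q → 0` is an exact sequence of Banach spaces and `W` is uniformly convex, then
there is a positively homogeneous bijection `X → W × Q` which is uniformly continuous on bounded
sets together with its inverse.
-/

set_option autoImplicit false

namespace Pool.Agent.Lib.MP823

open Metric Set

variable {A B C : Type*} [NormedAddCommGroup A] [NormedSpace ℝ A] [NormedAddCommGroup B]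
  [NormedSpace ℝ B] [NormedAddCommGroup C] [NormedSpace ℝ C]

theorem PH.pair {f : A → B} {g : A → C} (hf : PH f) (hg : PH g) : PH (fun x => (f x, g x)) := by
  refine ⟨fun t ht x => ?_, fun R => ?_⟩
  · ext1
    · exact hf.hom t ht _
    · exact hg.hom t ht _
  · rw [Metric.uniformContinuousOn_iff]
    intro ε hε
    obtain ⟨δ1, hδ1, h1⟩ := Metric.uniformContinuousOn_iff.1 (hf.uc R) ε hε
    obtain ⟨δ2, hδ2, h2⟩ := Metric.uniformContinuousOn_iff.1 (hg.uc R) ε hε
    refine ⟨min δ1 δ2, by positivity, fun x hx y hy hxy => ?_⟩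
    rw [lt_min_iff] at hxy
    rw [Prod.dist_eq]
    exact max_lt (h1 x hx y hy hxy.1) (h2 x hx y hy hxy.2)

theorem PH.add {f g : A → B} (hf : PH f) (hg : PH g) : PH (fun x => f x + g x) := by
  have h1 : PH (fun p : B × B => p.1 + p.2) :=
    PH.ofCLM (ContinuousLinearMap.fst ℝ B B + ContinuousLinearMap.snd ℝ B B)
  exact h1.comp (hf.pair hg)

theorem PH.neg {f : A → B} (hf : PH f) : PH (fun x => - f x) := by
  have h1 : PH (fun p : B => - p) := PH.ofCLM (- ContinuousLinearMap.id ℝ B)
  exact h1.comp hf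

variable {X W Q : Type*} [NormedAddCommGroup X] [NormedSpace ℝ X] [CompleteSpace X]
  [NormedAddCommGroup W] [NormedSpace ℝ W] [UniformConvexSpace W] [CompleteSpace W]
  [NormedAddCommGroup Q] [NormedSpace ℝ Q] [CompleteSpace Q]

theorem HU.ofExtension (i : W →L[ℝ] X) {c : ℝ} (hc : 0 < c) (hi : ∀ w : W, ‖w‖ ≤ c * ‖i w‖)
    (q : X →L[ℝ] Q) (hq : Function.Surjective q) (hex : ∀ x, q x = 0 ↔ ∃ w, i w = x) :
    HU X (W × Q) := by
  obtain ⟨γ, hγs, hγh, hγu⟩ := exists_center i hc hi
  have hγ : PH γ := ⟨hγh, hγu⟩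
  obtain ⟨K, hK, hpre⟩ := q.exists_preimage_norm_le hq
  choose g hgq hgn using hpre
  set s : X → X := fun x => x + i (γ x) with hs
  have hsPH : PH s := PH.id.add ((PH.ofCLM i).comp hγ)
  have hsq : ∀ x x', q x = q x' → s x = s x' := by
    intro x x' h
    have h0 : q (x' - x) = 0 := by rw [map_sub, h, sub_self]
    obtain ⟨w, hw⟩ := (hex _).1 h0
    have e : x' = x + i w := by rw [hw]; abel
    rw [hs]
    simp only
    rw [e, hγs, map_sub]
    abel
  have hqi : ∀ w, q (i w) = 0 := fun w => (hex _).2 ⟨w, rfl⟩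
  have hqs : ∀ x, q (s x) = q x := by
    intro x
    rw [hs]
    simp only
    rw [map_add, hqi, add_zero]
  set σ : Q → X := fun y => s (g y) with hσ
  have hσs : ∀ x, σ (q x) = s x := fun x => hsq _ _ (hgq _)
  have hσPH : PH σ := by
    refine ⟨fun t ht y => ?_, fun R => ?_⟩
    · rw [hσ]
      simp only
      rw [← hsPH.hom t ht]
      apply hsq
      rw [hgq, map_smul, hgq]
    · rw [Metric.uniformContinuousOn_iff]
      intro ε hε
      obtain ⟨δ, hδ, h⟩ := Metric.uniformContinuousOn_iff.1 (hsPH.uc (3 * (K * |R|))) ε hε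
      refine ⟨δ / K, by positivity, fun y hy y' hy' hyy => ?_⟩
      rw [mem_closedBall_zero_iff] at hy hy'
      have hRa := le_abs_self R
      have hR0 := abs_nonneg R
      rw [dist_eq_norm, norm_sub_rev, lt_div_iff₀ hK] at hyy
      have h1 : σ y' = s (g y + g (y' - y)) := by
        rw [hσ]
        apply hsq
        rw [map_add, hgq, hgq, hgq]
        abel
      rw [h1]
      have hz := hgn (y' - y)
      have hgy := hgn y
      have h2 : K * ‖y‖ ≤ K * |R| := mul_le_mul_of_nonneg_left (hy.trans hRa) hK.le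
      have h3 : K * ‖y' - y‖ ≤ K * (|R| + |R|) :=
        mul_le_mul_of_nonneg_left ((norm_sub_le _ _).trans (by linarith)) hK.le
      refine h _ ?_ _ ?_ ?_
      · rw [mem_closedBall_zero_iff]
        nlinarith [mul_nonneg hK.le hR0]
      · rw [mem_closedBall_zero_iff]
        have := norm_add_le (g y) (g (y' - y))
        linarith
      · rw [dist_eq_norm]
        have e : g y - (g y + g (y' - y)) = - g (y' - y) := by abel
        rw [e, norm_neg]
        linarith
  refine ⟨⟨fun x => (- γ x, q x), fun p => σ p.2 + i p.1, fun x => ?_, fun p => ?_⟩, ?_, ?_⟩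
  · simp only
    rw [hσs, map_neg, hs]
    simp
  · obtain ⟨w, y⟩ := p
    simp only
    have e : σ y + i w = g y + i (γ (g y) + w) := by
      rw [hσ, hs, map_add]
      simp only
      abel
    ext1
    · simp only
      rw [e, hγs]
      abel
    · simp only
      rw [map_add, hqi, add_zero, hσ]
      simp only
      rw [hqs, hgq]
  · exact hγ.neg.pair (PH.ofCLM q)
  · have h1 : PH (fun p : W × Q => σ p.2) := hσPH.comp (PH.ofCLM (ContinuousLinearMap.snd ℝ W Q))
    have h2 : PH (fun p : W × Q => i p.1) :=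
      (PH.ofCLM i).comp (PH.ofCLM (ContinuousLinearMap.fst ℝ W Q))
    exact h1.add h2

/-- A subspace of a uniformly convex space is uniformly convex. -/
theorem uniformConvex_submodule {Y : Type*} [NormedAddCommGroup Y] [NormedSpace ℝ Y]
    [UniformConvexSpace Y] (S : Submodule ℝ Y) : UniformConvexSpace S := by
  refine ⟨fun ε hε => ?_⟩
  obtain ⟨δ, hδ, h⟩ := UniformConvexSpace.uniform_convex (E := Y) hε
  exact ⟨δ, hδ, fun x hx y hy hxy => h (x := (x : Y)) hx (y := (y : Y)) hy hxy⟩

end Pool.Agent.Lib.MP823
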